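import Pool.Agent.H26.KrB
import Pool.Agent.H26.KrDefs

set_option autoImplicit false

namespace Pool.Agent.Results.MP_f4a04c_gt.NoKRP

open Pool.Agent.H26.KrDefs

theorem result : ∃ S : Set V, IsConvexBody S ∧ (interior S).Nonempty ∧ ¬ HasKRP S :=
  Pool.Agent.H26.Kr.main

end Pool.Agent.Results.MP_f4a04c_gt.NoKRP
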